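import Mathlib

/-!
# The second numerical index of an l2-sum of two Banach spaces
-/

namespace Pool.Agent.Results.MP_01d095_an.TwoSum

open Metric

/-- `(x, f)` belongs to `Π(X)`. -/
def IsState {X : Type*} [NormedAddCommGroup X] [NormedSpace ℝ X] (x : X) (f : X →L[ℝ] ℝ) : Prop :=
  ‖x‖ = 1 ∧ ‖f‖ = 1 ∧ f x = 1

/-- The numerical radius. -/
noncomputable def numRadius {X : Type*} [NormedAddCommGroup X] [NormedSpace ℝ X]
    (T : X →L[ℝ] X) : ℝ :=
  sSup {r : ℝ | ∃ (x : X) (f : X →L[ℝ] ℝ), IsState x f ∧ r = |f (T x)|}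

/-- The set of skew-hermitian operators. -/
def skewHerm (X : Type*) [NormedAddCommGroup X] [NormedSpace ℝ X] : Set (X →L[ℝ] X) :=
  {S | numRadius S = 0}

/-- The quotient norm `‖T + Z(X)‖`. -/
noncomputable def quotNorm {X : Type*} [NormedAddCommGroup X] [NormedSpace ℝ X]
    (T : X →L[ℝ] X) : ℝ :=
  sInf {r : ℝ | ∃ S ∈ skewHerm X, r = ‖T - S‖}

/-- The second numerical index. -/
noncomputable def secondNumIndex (X : Type*) [NormedAddCommGroup X] [NormedSpace ℝ X] : ℝ :=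
  sSup {k : ℝ | 0 ≤ k ∧ ∀ T : X →L[ℝ] X, k * quotNorm T ≤ numRadius T}

section basic

variable {X : Type*} [NormedAddCommGroup X] [NormedSpace ℝ X]

theorem state_le {x : X} {f : X →L[ℝ] ℝ} (h : IsState x f) (T : X →L[ℝ] X) :
    |f (T x)| ≤ ‖T‖ := by
  have h1 : ‖f (T x)‖ ≤ ‖f‖ * ‖T x‖ := f.le_opNorm _
  have h2 : ‖T x‖ ≤ ‖T‖ * ‖x‖ := T.le_opNorm _
  rw [h.1, mul_one] at h2
  rw [h.2.1, one_mul, Real.norm_eq_abs] at h1
  linarith

theorem bddAbove_num (T : X →L[ℝ] X) :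
    BddAbove {r : ℝ | ∃ (x : X) (f : X →L[ℝ] ℝ), IsState x f ∧ r = |f (T x)|} := by
  refine ⟨‖T‖, ?_⟩
  rintro r ⟨x, f, h, rfl⟩
  exact state_le h T

theorem le_numRadius {x : X} {f : X →L[ℝ] ℝ} (h : IsState x f) (T : X →L[ℝ] X) :
    |f (T x)| ≤ numRadius T :=
  le_csSup (bddAbove_num T) ⟨x, f, h, rfl⟩

theorem numRadius_nonneg (T : X →L[ℝ] X) : 0 ≤ numRadius T := by
  apply Real.sSup_nonneg
  rintro r ⟨x, f, _, rfl⟩
  exact abs_nonneg _

theorem numRadius_le {T : X →L[ℝ] X} {c : ℝ} (hc : 0 ≤ c)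
    (h : ∀ (x : X) (f : X →L[ℝ] ℝ), IsState x f → |f (T x)| ≤ c) : numRadius T ≤ c := by
  apply Real.sSup_le _ hc
  rintro r ⟨x, f, hx, rfl⟩
  exact h x f hx

theorem zero_mem_skew : (0 : X →L[ℝ] X) ∈ skewHerm X := by
  apply le_antisymm _ (numRadius_nonneg _)
  apply numRadius_le le_rfl
  intro x f _
  simp

theorem bddBelow_quot (T : X →L[ℝ] X) :
    BddBelow {r : ℝ | ∃ S ∈ skewHerm X, r = ‖T - S‖} := by
  refine ⟨0, ?_⟩
  rintro r ⟨S, _, rfl⟩
  exact norm_nonneg _

theorem quotNorm_le {T S : X →L[ℝ] X} (hS : S ∈ skewHerm X) : quotNorm T ≤ ‖T - S‖ :=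
  csInf_le (bddBelow_quot T) ⟨S, hS, rfl⟩

theorem le_quotNorm {T : X →L[ℝ] X} {c : ℝ} (h : ∀ S ∈ skewHerm X, c ≤ ‖T - S‖) :
    c ≤ quotNorm T := by
  refine le_csInf (s := {r : ℝ | ∃ S ∈ skewHerm X, r = ‖T - S‖}) ⟨_, 0, zero_mem_skew, rfl⟩ ?_
  rintro r ⟨S, hS, rfl⟩
  exact h S hS

theorem exists_state [Nontrivial X] : ∃ (x : X) (f : X →L[ℝ] ℝ), IsState x f := by
  obtain ⟨x, hx⟩ := exists_norm_eq X (zero_le_one (α := ℝ))
  obtain ⟨f, hf1, hf2⟩ := exists_dual_vector'' ℝ x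
  have hfx : f x = 1 := by simpa [hx] using hf2
  refine ⟨x, f, hx, le_antisymm hf1 ?_, hfx⟩
  have := f.le_opNorm x
  rw [hfx, hx, mul_one] at this
  simpa using this

theorem index_le_one [Nontrivial X] {k : ℝ} (hk : 0 ≤ k)
    (h : ∀ T : X →L[ℝ] X, k * quotNorm T ≤ numRadius T) : k ≤ 1 := by
  have h1 : (1 : ℝ) ≤ quotNorm (ContinuousLinearMap.id ℝ X) := by
    apply le_quotNorm
    intro S hS
    obtain ⟨x, f, hx⟩ := exists_state (X := X)
    have h2 := state_le hx (ContinuousLinearMap.id ℝ X - S)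
    have h3 : |f (S x)| ≤ 0 := by
      have := le_numRadius hx S
      rwa [show numRadius S = 0 from hS] at this
    have h4 : f (S x) = 0 := abs_nonpos_iff.mp h3
    have h5 : f ((ContinuousLinearMap.id ℝ X - S) x) = 1 := by
      simp [h4, hx.2.2]
    rw [h5, abs_one] at h2
    exact h2
  have h2 : numRadius (ContinuousLinearMap.id ℝ X) ≤ 1 := by
    apply numRadius_le zero_le_one
    intro x f hx
    simp [hx.2.2]
  have h3 := h (ContinuousLinearMap.id ℝ X)
  nlinarith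

theorem bddAbove_index [Nontrivial X] :
    BddAbove {k : ℝ | 0 ≤ k ∧ ∀ T : X →L[ℝ] X, k * quotNorm T ≤ numRadius T} :=
  ⟨1, fun _ hk => index_le_one hk.1 hk.2⟩

/-- The supremum defining `secondNumIndex` is attained, so that it is a maximum. -/
theorem isGreatest_secondNumIndex [Nontrivial X] :
    IsGreatest {k : ℝ | 0 ≤ k ∧ ∀ T : X →L[ℝ] X, k * quotNorm T ≤ numRadius T}
      (secondNumIndex X) := by
  have hne : {k : ℝ | 0 ≤ k ∧ ∀ T : X →L[ℝ] X, k * quotNorm T ≤ numRadius T}.Nonempty :=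
    ⟨0, le_rfl, fun T => by simpa using numRadius_nonneg T⟩
  have hq : ∀ T : X →L[ℝ] X, 0 ≤ quotNorm T := fun T => le_quotNorm fun S _ => norm_nonneg _
  refine ⟨⟨le_csSup bddAbove_index ⟨le_rfl, fun T => by simpa using numRadius_nonneg T⟩, ?_⟩,
    fun k hk => le_csSup bddAbove_index hk⟩
  intro T
  rcases eq_or_lt_of_le (hq T) with h0 | h0
  · rw [← h0, mul_zero]
    exact numRadius_nonneg T
  · rw [← le_div_iff₀ h0]
    apply csSup_le hne
    intro k hk
    rw [le_div_iff₀ h0]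
    exact hk.2 T

end basic

section compare

variable {X Y : Type*} [NormedAddCommGroup X] [NormedSpace ℝ X] [NormedAddCommGroup Y]
  [NormedSpace ℝ Y]

theorem key_state (i : Y →L[ℝ] X) (P : X →L[ℝ] Y)
    (hn : ∀ (x : X) (y : Y), ‖x - i (P x) + i y‖ ^ 2 = ‖x‖ ^ 2 - ‖P x‖ ^ 2 + ‖y‖ ^ 2)
    {x : X} {f : X →L[ℝ] ℝ} (h : IsState x f) :
    f (i (P x)) = ‖P x‖ ^ 2 ∧ ∀ y : Y, ‖y‖ = ‖P x‖ → f (i y) ≤ ‖P x‖ ^ 2 := by
  have h1 : ∀ y : Y, f (i y) - f (i (P x)) ≤ (‖y‖ ^ 2 - ‖P x‖ ^ 2) / 2 := by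
    intro y
    have ha : f (x - i (P x) + i y) ≤ ‖x - i (P x) + i y‖ := by
      have := f.le_opNorm (x - i (P x) + i y)
      rw [h.2.1, one_mul] at this
      exact le_trans (le_abs_self _) this
    have hb := hn x y
    rw [h.1, one_pow] at hb
    have hc : f (x - i (P x) + i y) = 1 - f (i (P x)) + f (i y) := by
      rw [map_add, map_sub, h.2.2]
    rw [hc] at ha
    nlinarith [sq_nonneg (‖x - i (P x) + i y‖ - 1)]
  have h2 : ∀ t : ℝ, (t - 1) * f (i (P x)) ≤ (t - 1) * ((t + 1) * ‖P x‖ ^ 2 / 2) := by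
    intro t
    have h3 := h1 (t • P x)
    rw [map_smul, map_smul, norm_smul, smul_eq_mul, mul_pow, Real.norm_eq_abs, sq_abs] at h3
    nlinarith
  have h3 : f (i (P x)) = ‖P x‖ ^ 2 := by
    apply le_antisymm
    · apply le_of_forall_pos_le_add
      intro e he
      have hp : (0 : ℝ) < ‖P x‖ ^ 2 + 1 := by positivity
      have h4 := h2 (1 + e / (‖P x‖ ^ 2 + 1))
      have h5 : 0 < e / (‖P x‖ ^ 2 + 1) := by positivity
      have h6 : f (i (P x)) ≤ ((1 + e / (‖P x‖ ^ 2 + 1)) + 1) * ‖P x‖ ^ 2 / 2 := by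
        have h7 : (1 + e / (‖P x‖ ^ 2 + 1) - 1) = e / (‖P x‖ ^ 2 + 1) := by ring
        rw [h7] at h4
        exact le_of_mul_le_mul_left h4 h5
      have h8 : e / (‖P x‖ ^ 2 + 1) * ‖P x‖ ^ 2 ≤ e := by
        rw [div_mul_eq_mul_div, div_le_iff₀ hp]
        nlinarith
      nlinarith
    · apply le_of_forall_pos_le_add
      intro e he
      have hp : (0 : ℝ) < ‖P x‖ ^ 2 + 1 := by positivity
      have h4 := h2 (1 - e / (‖P x‖ ^ 2 + 1))
      have h5 : 0 < e / (‖P x‖ ^ 2 + 1) := by positivity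
      have h6 : ((1 - e / (‖P x‖ ^ 2 + 1)) + 1) * ‖P x‖ ^ 2 / 2 ≤ f (i (P x)) := by
        have h7 : (1 - e / (‖P x‖ ^ 2 + 1) - 1) = - (e / (‖P x‖ ^ 2 + 1)) := by ring
        rw [h7, neg_mul, neg_mul, neg_le_neg_iff] at h4
        exact le_of_mul_le_mul_left h4 h5
      have h8 : e / (‖P x‖ ^ 2 + 1) * ‖P x‖ ^ 2 ≤ e := by
        rw [div_mul_eq_mul_div, div_le_iff₀ hp]
        nlinarith
      nlinarith
  refine ⟨h3, fun y hy => ?_⟩
  have h4 := h1 y
  rw [hy, h3] at h4
  linarith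

theorem compare [Nontrivial Y] (i : Y →L[ℝ] X) (P : X →L[ℝ] Y)
    (hPi : ∀ y, P (i y) = y) (hi : ∀ y, ‖i y‖ = ‖y‖) (hP : ∀ x, ‖P x‖ ≤ ‖x‖)
    (hn : ∀ (x : X) (y : Y), ‖x - i (P x) + i y‖ ^ 2 = ‖x‖ ^ 2 - ‖P x‖ ^ 2 + ‖y‖ ^ 2) :
    secondNumIndex X ≤ secondNumIndex Y := by
  have hPn : ‖P‖ ≤ 1 := P.opNorm_le_bound zero_le_one (fun x => by simpa using hP x)
  have hin : ‖i‖ ≤ 1 := i.opNorm_le_bound zero_le_one (fun y => by simp [hi y])
  -- states of `Y` give states of `X`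
  have hst : ∀ (y : Y) (g : Y →L[ℝ] ℝ), IsState y g → IsState (i y) (g.comp P) := by
    intro y g h
    have h1 : (g.comp P) (i y) = 1 := by simp [hPi, h.2.2]
    refine ⟨by rw [hi, h.1], le_antisymm ?_ ?_, h1⟩
    · calc ‖g.comp P‖ ≤ ‖g‖ * ‖P‖ := g.opNorm_comp_le P
        _ ≤ 1 * 1 := by rw [h.2.1]; gcongr
        _ = 1 := by norm_num
    · have := (g.comp P).le_opNorm (i y)
      rw [h1, hi, h.1, mul_one] at this
      simpa using this
  -- compression of skew-hermitian operators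
  have hskew : ∀ S ∈ skewHerm X, P.comp (S.comp i) ∈ skewHerm Y := by
    intro S hS
    apply le_antisymm _ (numRadius_nonneg _)
    apply numRadius_le le_rfl
    intro y g h
    have := le_numRadius (hst y g h) S
    rw [show numRadius S = 0 from hS] at this
    simpa using this
  refine csSup_le (s := {k : ℝ | 0 ≤ k ∧ ∀ T : X →L[ℝ] X, k * quotNorm T ≤ numRadius T})
    ⟨0, le_rfl, fun T => by simpa using numRadius_nonneg T⟩ ?_
  rintro k ⟨hk, hk2⟩
  apply le_csSup bddAbove_index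
  refine ⟨hk, fun T => ?_⟩
  have h1 : quotNorm T ≤ quotNorm (i.comp (T.comp P)) := by
    apply le_quotNorm
    intro S hS
    refine le_trans (quotNorm_le (hskew S hS)) ?_
    have h2 : T - P.comp (S.comp i) = P.comp ((i.comp (T.comp P) - S).comp i) := by
      ext y
      simp [hPi]
    rw [h2]
    calc ‖P.comp ((i.comp (T.comp P) - S).comp i)‖
        ≤ ‖P‖ * ‖(i.comp (T.comp P) - S).comp i‖ := P.opNorm_comp_le _
      _ ≤ ‖P‖ * (‖i.comp (T.comp P) - S‖ * ‖i‖) := by
          gcongr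
          exact ContinuousLinearMap.opNorm_comp_le _ _
      _ ≤ 1 * (‖i.comp (T.comp P) - S‖ * 1) := by gcongr
      _ = ‖i.comp (T.comp P) - S‖ := by ring
  have h2 : numRadius (i.comp (T.comp P)) ≤ numRadius T := by
    apply numRadius_le (numRadius_nonneg T)
    intro x f hx
    obtain ⟨ha, hb⟩ := key_state i P hn hx
    rcases eq_or_ne (P x) 0 with h0 | h0
    · simp [h0, numRadius_nonneg]
    · have hpos : 0 < ‖P x‖ := norm_pos_iff.mpr h0
      have hle1 : ‖P x‖ ≤ 1 := by rw [← hx.1]; exact hP x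
      set a := ‖P x‖ with hadef
      have hstate : IsState (a⁻¹ • P x) (a⁻¹ • (f.comp i)) := by
        have hv : (a⁻¹ • (f.comp i)) (a⁻¹ • P x) = 1 := by
          simp only [_root_.smul_apply, map_smul, ContinuousLinearMap.comp_apply,
            smul_eq_mul, ha]
          field_simp
        have hn1 : ‖a⁻¹ • P x‖ = 1 := by
          rw [norm_smul, norm_inv, Real.norm_eq_abs, abs_of_pos hpos, ← hadef,
            inv_mul_cancel₀ hpos.ne']
        refine ⟨hn1, le_antisymm ?_ ?_, hv⟩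
        · apply ContinuousLinearMap.opNorm_le_bound _ zero_le_one
          intro y
          rcases eq_or_ne y 0 with hy | hy
          · simp [hy]
          have hypos : 0 < ‖y‖ := norm_pos_iff.mpr hy
          have hgen : ∀ z : Y, ‖z‖ = a → |f (i z)| ≤ a ^ 2 := by
            intro z hz
            rw [abs_le]
            constructor
            · have := hb (-z) (by rw [norm_neg, hz])
              rw [map_neg, map_neg] at this
              linarith
            · exact hb z hz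
          have hz := hgen ((a / ‖y‖) • y) (by
            rw [norm_smul, norm_div, Real.norm_eq_abs, abs_of_pos hpos, norm_norm]
            field_simp)
          rw [map_smul, map_smul, smul_eq_mul, abs_mul, abs_of_pos (by positivity)] at hz
          rw [one_mul, _root_.smul_apply, ContinuousLinearMap.comp_apply,
            smul_eq_mul, Real.norm_eq_abs, abs_mul, abs_of_pos (by positivity : 0 < a⁻¹)]
          have h3 : a / ‖y‖ * |f (i y)| = (a ^ 2) * (a⁻¹ * |f (i y)|) / ‖y‖ := by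
            field_simp
          rw [h3, div_le_iff₀ hypos] at hz
          have ha2 : 0 < a ^ 2 := by positivity
          exact le_of_mul_le_mul_left hz ha2
        · have := (a⁻¹ • (f.comp i)).le_opNorm (a⁻¹ • P x)
          rw [hv, hn1, mul_one] at this
          simpa using this
      have h3 := le_numRadius hstate T
      have h4 : f ((i.comp (T.comp P)) x) =
          a ^ 2 * (a⁻¹ • (f.comp i)) (T (a⁻¹ • P x)) := by
        simp only [_root_.smul_apply, map_smul, ContinuousLinearMap.comp_apply,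
          smul_eq_mul]
        field_simp
      rw [h4, abs_mul, abs_of_pos (by positivity : 0 < a ^ 2)]
      calc a ^ 2 * |(a⁻¹ • (f.comp i)) (T (a⁻¹ • P x))|
          ≤ 1 * numRadius T := by
            gcongr
            nlinarith
        _ = numRadius T := one_mul _
  calc k * quotNorm T ≤ k * quotNorm (i.comp (T.comp P)) := by gcongr
    _ ≤ numRadius (i.comp (T.comp P)) := hk2 _
    _ ≤ numRadius T := h2

end compare

/-- For all nonzero real Banach spaces `Y` and `W`, the second numerical index of `Y ⊕₂ W` is at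
most the minimum of those of `Y` and `W`. -/
theorem result (Y W : Type*) [NormedAddCommGroup Y] [NormedSpace ℝ Y] [CompleteSpace Y]
    [Nontrivial Y] [NormedAddCommGroup W] [NormedSpace ℝ W] [CompleteSpace W] [Nontrivial W] :
    secondNumIndex (WithLp 2 (Y × W)) ≤ min (secondNumIndex Y) (secondNumIndex W) := by
  apply le_min
  · refine compare (((WithLp.prodContinuousLinearEquiv 2 ℝ Y W).symm :
      (Y × W) →L[ℝ] WithLp 2 (Y × W)).comp (ContinuousLinearMap.inl ℝ Y W))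
      (WithLp.fstL 2 ℝ Y W) ?_ ?_ ?_ ?_
    · intro y
      rfl
    · intro y
      exact WithLp.norm_toLp_fst 2 Y W y
    · intro x
      exact WithLp.norm_fst_le _ x
    · intro x y
      rw [WithLp.prod_norm_sq_eq_of_L2, WithLp.prod_norm_sq_eq_of_L2]
      simp
      ring
  · refine compare (((WithLp.prodContinuousLinearEquiv 2 ℝ Y W).symm :
      (Y × W) →L[ℝ] WithLp 2 (Y × W)).comp (ContinuousLinearMap.inr ℝ Y W))
      (WithLp.sndL 2 ℝ Y W) ?_ ?_ ?_ ?_
    · intro y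
      rfl
    · intro y
      exact WithLp.norm_toLp_snd 2 Y W y
    · intro x
      exact WithLp.norm_snd_le _ x
    · intro x y
      rw [WithLp.prod_norm_sq_eq_of_L2, WithLp.prod_norm_sq_eq_of_L2]
      simp

end Pool.Agent.Results.MP_01d095_an.TwoSum
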